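import Mathlib
import Pool.Agent.H998R2.OsiNum

set_option autoImplicit false

/-!
# A lower bound for the sparsity of SparseStack subspace injections

Constant sparsity and linear embedding dimension never give an oblivious subspace injection with
a constant parameter: negative answer to both questions.
-/

namespace Pool.Agent.Results.MP_59a663_pr.SparsityLowerBound

open Matrix Pool.Agent.H998R2.OsiDefs Pool.Agent.H998R2.OsiCore Pool.Agent.H998R2.OsiNum
  Pool.Agent.H998R2.Avg

/-- Sanity check (not part of the result): the total probability is one. -/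
theorem prob_univ {n ζ b : ℕ} (hb : 1 ≤ b) : prob (Set.univ : Set (Outcome n ζ b)) = 1 := by
  have : Nonempty (Fin b) := ⟨⟨0, hb⟩⟩
  have : (Nat.card (Outcome n ζ b) : ℝ) ≠ 0 := by
    have := Nat.card_pos (α := Outcome n ζ b)
    positivity
  unfold prob
  rw [Nat.card_congr (Equiv.Set.univ _)]
  exact div_self this

/-- Sanity check (not part of the result): every SparseStack is isotropic, the mean of `‖Ωᵀ x‖²`
over all outcomes is `‖x‖²`. -/
theorem isotropy {n ζ b : ℕ} (hζ : 1 ≤ ζ) (hb : 1 ≤ b) (x : Fin n → ℝ) :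
    (∑ ω : Outcome n ζ b, normSq ((sparseStack ω)ᵀ.mulVec x)) / Fintype.card (Outcome n ζ b) =
      normSq x :=
  isotropic hζ hb x

/-- For all `C`, `α > 0` and `δ < 1` there is `c > 0` such that for all large `r` and all `n ≥ r`
no SparseStack in `ℝ^(n × bζ)` with `ζ² log (ζ + 1) ≤ c log r` and `b ζ ≤ C r` is an oblivious
subspace injection for `r`-dimensional subspaces with parameter `α` and failure probability `δ`. -/
theorem result (C α δ : ℝ) (hα : 0 < α) (hδ : δ < 1) :
    ∃ c : ℝ, 0 < c ∧ ∃ r₀ : ℕ, ∀ r : ℕ, r₀ ≤ r → ∀ n : ℕ, r ≤ n → ∀ ζ b : ℕ, 1 ≤ ζ → 1 ≤ b →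
      (ζ : ℝ) ^ 2 * Real.log (ζ + 1) ≤ c * Real.log r → ((b * ζ : ℕ) : ℝ) ≤ C * r →
      ¬ IsOSI n ζ b r α δ :=
  main C α δ hα hδ

end Pool.Agent.Results.MP_59a663_pr.SparsityLowerBound
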